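import Pool.Agent.Lib.MP_36fb39_al.CvF

set_option autoImplicit false

namespace Pool.Agent.Results.MP_36fb39_al.Converse

open Pool.Agent.Lib.MP_36fb39_al

universe u

/-- `Q` is polycyclic: it has a finite subnormal series from the trivial group to `Q` with cyclic
factors. -/
def IsPolycyclic (Q : Type u) [Group Q] : Prop :=
  ∃ (l : ℕ) (S : ℕ → Subgroup Q), S 0 = ⊥ ∧ S l = ⊤ ∧ ∀ i < l, S i ≤ S (i + 1) ∧
    ∃ _ : ((S i).subgroupOf (S (i + 1))).Normal,
      IsCyclic (S (i + 1) ⧸ (S i).subgroupOf (S (i + 1)))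

/-- For every finitely generated soluble group `Q` that is not polycyclic, some finitely generated
abelian-by-`Q` group has a subgroup of infinite upper central height. -/
theorem result (Q : Type u) [Group Q] (hQ : Group.FG Q) (hs : Group.IsSolvable Q)
    (hn : ¬ IsPolycyclic Q) :
    ∃ (G : Type u) (_ : Group G) (A : Subgroup G) (_ : A.Normal) (H : Subgroup G),
      Group.FG G ∧ (∀ x ∈ A, ∀ y ∈ A, x * y = y * x) ∧ Nonempty (G ⧸ A ≃* Q) ∧
        ∀ n : ℕ, Subgroup.upperCentralSeries H n ≠ Subgroup.upperCentralSeries H (n + 1) := by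
  by_contra h
  push Not at h
  obtain ⟨l, hl⟩ := pc_of_hall hQ fun G _ hG f hf hA H =>
    h G _ f.ker inferInstance H hG hA ⟨QuotientGroup.quotientKerEquivOfSurjective f hf⟩
  exact hn ⟨l, series_of_pc hl⟩

end Pool.Agent.Results.MP_36fb39_al.Converse
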